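import Pool.Agent.Helper23.GK.StC
import Pool.Agent.Helper48.BK.M_Uns

/-!
# GK module MOB: Moebius sums with `χ(n) n^{-iτ}`
-/

set_option autoImplicit false

namespace Pool.Agent.Helper11.GK

open Finset ArithmeticFunction Filter MeasureTheory
open Pool.Agent.Helper23.GK
open Pool.Agent.Helper2.MR (ch)

/-! ### `∑ n^{-1-η} ≤ 1 + 1/η` -/

lemma step_MOB {η : ℝ} (hη : 0 < η) {n : ℕ} (hn : 1 ≤ n) :
    (((n + 1 : ℕ) : ℝ)) ^ (-(1 + η)) ≤ (((n : ℝ)) ^ (-η) - ((n + 1 : ℕ) : ℝ) ^ (-η)) / η := by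
  have hn0 : (0 : ℝ) < n := by exact_mod_cast hn
  have hm0 : (0 : ℝ) < ((n + 1 : ℕ) : ℝ) := by positivity
  have hcast : ((n + 1 : ℕ) : ℝ) = n + 1 := by push_cast; ring
  rw [le_div_iff₀ hη]
  have h1 : ((n + 1 : ℕ) : ℝ) ^ (-(1 + η)) = ((n + 1 : ℕ) : ℝ) ^ (-η) * (((n + 1 : ℕ) : ℝ))⁻¹ := by
    rw [show -(1 + η) = -η + (-1) by ring, Real.rpow_add hm0, Real.rpow_neg_one]
  have h2 : ((n : ℝ)) ^ (-η) = ((n + 1 : ℕ) : ℝ) ^ (-η) * (((n : ℝ)) / ((n + 1 : ℕ) : ℝ)) ^ (-η) := by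
    rw [← Real.mul_rpow hm0.le (by positivity), mul_div_cancel₀ _ hm0.ne']
  have h3 : 1 + η * (((n + 1 : ℕ) : ℝ))⁻¹ ≤ (((n : ℝ)) / ((n + 1 : ℕ) : ℝ)) ^ (-η) := by
    rw [Real.rpow_def_of_pos (by positivity)]
    have h4 : Real.log ((n : ℝ) / ((n + 1 : ℕ) : ℝ)) ≤ -(((n + 1 : ℕ) : ℝ))⁻¹ := by
      have h5 := Real.log_le_sub_one_of_pos (x := (n : ℝ) / ((n + 1 : ℕ) : ℝ)) (by positivity)
      refine h5.trans (le_of_eq ?_)
      rw [hcast]
      field_simp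
      ring
    have h6 : η * (((n + 1 : ℕ) : ℝ))⁻¹ ≤ Real.log ((n : ℝ) / ((n + 1 : ℕ) : ℝ)) * (-η) := by
      nlinarith
    have h7 := Real.add_one_le_exp (Real.log ((n : ℝ) / ((n + 1 : ℕ) : ℝ)) * (-η))
    linarith
  rw [h1, h2]
  have h8 : 0 < ((n + 1 : ℕ) : ℝ) ^ (-η) := Real.rpow_pos_of_pos hm0 _
  nlinarith [mul_le_mul_of_nonneg_left h3 h8.le]

lemma range_MOB {η : ℝ} (hη : 0 < η) (N : ℕ) :
    ∑ n ∈ range (N + 2), ((n : ℝ)) ^ (-(1 + η)) ≤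
      1 + (1 - ((N + 1 : ℕ) : ℝ) ^ (-η)) / η := by
  induction N with
  | zero =>
    rw [sum_range_succ, sum_range_succ, sum_range_zero]
    have h0 : ((0 : ℕ) : ℝ) ^ (-(1 + η)) = 0 := by
      rw [Nat.cast_zero, Real.zero_rpow]
      linarith
    rw [h0]
    norm_num
  | succ N ih =>
    rw [sum_range_succ]
    have h := step_MOB hη (n := N + 1) (by omega)
    have h2 : (1 - ((N + 1 + 1 : ℕ) : ℝ) ^ (-η)) / η =
        (1 - ((N + 1 : ℕ) : ℝ) ^ (-η)) / η +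
        (((N + 1 : ℕ) : ℝ) ^ (-η) - ((N + 1 + 1 : ℕ) : ℝ) ^ (-η)) / η := by ring
    rw [h2]
    linarith

lemma summable_MOB {η : ℝ} (hη : 0 < η) : Summable (fun n : ℕ => ((n : ℝ)) ^ (-(1 + η))) :=
  Real.summable_nat_rpow.2 (by linarith)

lemma tsum_MOB {η : ℝ} (hη : 0 < η) :
    ∑' n : ℕ, ((n : ℝ)) ^ (-(1 + η)) ≤ 1 + 1 / η := by
  refine (summable_MOB hη).tsum_le_of_sum_range_le fun n => ?_
  have h1 : ∑ i ∈ range n, ((i : ℝ)) ^ (-(1 + η)) ≤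
      ∑ i ∈ range (n + 2), ((i : ℝ)) ^ (-(1 + η)) := by
    refine sum_le_sum_of_subset_of_nonneg (range_mono (by omega)) fun i _ _ => by positivity
  refine h1.trans ((range_MOB hη n).trans ?_)
  have h2 : 0 < ((n + 1 : ℕ) : ℝ) ^ (-η) := Real.rpow_pos_of_pos (by positivity) _
  have h3 : (1 - ((n + 1 : ℕ) : ℝ) ^ (-η)) / η ≤ 1 / η := by
    apply div_le_div_of_nonneg_right _ hη.le
    linarith
  linarith

/-! ### the trivial bound -/

lemma logpow_MOB (k : ℕ) {η : ℝ} (hη : 0 < η) {n : ℕ} (hn : 1 ≤ n) :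
    Real.log n ^ k ≤ (k.factorial : ℝ) / η ^ k * (n : ℝ) ^ η := by
  have hn0 : (0 : ℝ) < n := by exact_mod_cast hn
  have hl : 0 ≤ Real.log n := Real.log_nonneg (by exact_mod_cast hn)
  have h1 := Real.pow_div_factorial_le_exp (η * Real.log n) (by positivity) k
  have h2 : Real.exp (η * Real.log n) = (n : ℝ) ^ η := by
    rw [Real.rpow_def_of_pos hn0, mul_comm]
  rw [h2, div_le_iff₀ (by positivity), mul_pow] at h1
  have h3 : 0 < η ^ k := by positivity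
  calc Real.log n ^ k = (η ^ k * Real.log n ^ k) / η ^ k := by field_simp
    _ ≤ ((n : ℝ) ^ η * (k.factorial : ℝ)) / η ^ k := by gcongr
    _ = (k.factorial : ℝ) / η ^ k * (n : ℝ) ^ η := by ring

lemma norm_ch_MOB (τ : ℝ) (n : ℕ) : ‖ch τ n‖ = 1 := by
  rw [ch, Complex.norm_exp_ofReal_mul_I]

lemma norm_cmu_MOB {q : ℕ} (χ : DirichletCharacter ℂ q) (n : ℕ) : ‖cmu χ n‖ ≤ 1 := by
  rw [cmu, norm_mul]
  have h1 : ‖((moebius n : ℤ) : ℂ)‖ ≤ 1 := by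
    rw [Complex.norm_intCast]
    exact_mod_cast abs_moebius_le_one
  have h2 : ‖χ (n : ZMod q)‖ ≤ 1 := DirichletCharacter.norm_le_one χ _
  exact mul_le_one₀ h1 (norm_nonneg _) h2

lemma norm_Mk_MOB {q : ℕ} (χ : DirichletCharacter ℂ q) (k : ℕ) {n : ℕ} (hn : 1 ≤ n) :
    ‖Mk χ k n‖ ≤ Real.log n ^ k := by
  have hl : 0 ≤ Real.log n := Real.log_nonneg (by exact_mod_cast hn)
  have h : Mk χ k n = cmu χ n * ((Real.log n : ℝ) : ℂ) ^ k := rfl
  rw [h, norm_mul, norm_pow, Complex.norm_real, Real.norm_of_nonneg hl]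
  exact mul_le_of_le_one_left (by positivity) (norm_cmu_MOB χ n)

/-- the twisted coefficients -/
noncomputable def fk_MOB {q : ℕ} (χ : DirichletCharacter ℂ q) (k : ℕ) (τ : ℝ) (n : ℕ) : ℂ :=
  Mk χ k n * ch τ n

lemma norm_fk_MOB {q : ℕ} (χ : DirichletCharacter ℂ q) (k : ℕ) (τ : ℝ) {n : ℕ} (hn : 1 ≤ n) :
    ‖fk_MOB χ k τ n‖ ≤ Real.log n ^ k := by
  rw [fk_MOB, norm_mul, norm_ch_MOB, mul_one]
  exact norm_Mk_MOB χ k hn

lemma term_MOB {q : ℕ} (χ : DirichletCharacter ℂ q) (k : ℕ) (τ : ℝ) {δ : ℝ} (hδ : 0 < δ)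
    {s : ℂ} (hs : s.re = 1 + δ) (n : ℕ) :
    ‖LSeries.term (fk_MOB χ k τ) s n‖ ≤
      (k.factorial : ℝ) / (δ / 2) ^ k * (n : ℝ) ^ (-(1 + δ / 2)) := by
  rcases Nat.eq_zero_or_pos n with rfl | hn
  · rw [LSeries.term_zero, norm_zero]
    positivity
  · have hn0 : (0 : ℝ) < n := by exact_mod_cast hn
    rw [LSeries.norm_term_eq, if_neg hn.ne', hs]
    have h1 := (norm_fk_MOB χ k τ hn).trans (logpow_MOB k (half_pos hδ) hn)
    calc ‖fk_MOB χ k τ n‖ / (n : ℝ) ^ (1 + δ) ≤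
        ((k.factorial : ℝ) / (δ / 2) ^ k * (n : ℝ) ^ (δ / 2)) / (n : ℝ) ^ (1 + δ) := by gcongr
      _ = (k.factorial : ℝ) / (δ / 2) ^ k * ((n : ℝ) ^ (δ / 2) / (n : ℝ) ^ (1 + δ)) := by ring
      _ = (k.factorial : ℝ) / (δ / 2) ^ k * (n : ℝ) ^ (-(1 + δ / 2)) := by
        rw [← Real.rpow_sub hn0]
        congr 2
        ring

lemma sumterm_MOB {q : ℕ} (χ : DirichletCharacter ℂ q) (k : ℕ) (τ : ℝ) {δ : ℝ} (hδ : 0 < δ)
    {s : ℂ} (hs : s.re = 1 + δ) : LSeriesSummable (fk_MOB χ k τ) s :=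
  Summable.of_norm_bounded ((summable_MOB (half_pos hδ)).mul_left _) (term_MOB χ k τ hδ hs)

lemma trivial_MOB {q : ℕ} (χ : DirichletCharacter ℂ q) (k : ℕ) (τ : ℝ) {δ : ℝ} (hδ : 0 < δ)
    (hδ1 : δ ≤ 1) {s : ℂ} (hs : s.re = 1 + δ) :
    ‖LSeries (fk_MOB χ k τ) s‖ ≤ 3 * 2 ^ k * (k.factorial : ℝ) / δ ^ (k + 1) := by
  have h1 : ‖LSeries (fk_MOB χ k τ) s‖ ≤
      ∑' n : ℕ, (k.factorial : ℝ) / (δ / 2) ^ k * (n : ℝ) ^ (-(1 + δ / 2)) :=
    tsum_of_norm_bounded ((summable_MOB (half_pos hδ)).mul_left _).hasSum (term_MOB χ k τ hδ hs)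
  refine h1.trans ?_
  rw [tsum_mul_left]
  have h2 := tsum_MOB (half_pos hδ)
  have h3 : 1 + 1 / (δ / 2) ≤ 3 / δ := by
    rw [show 1 / (δ / 2) = 2 / δ by field_simp, show 3 / δ = 1 / δ + 2 / δ by ring]
    have : 1 ≤ 1 / δ := by rw [le_div_iff₀ hδ]; linarith
    linarith
  calc (k.factorial : ℝ) / (δ / 2) ^ k * ∑' n : ℕ, (n : ℝ) ^ (-(1 + δ / 2)) ≤
      (k.factorial : ℝ) / (δ / 2) ^ k * (3 / δ) := by
        gcongr
        exact h2.trans h3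
    _ = 3 * 2 ^ k * (k.factorial : ℝ) / δ ^ (k + 1) := by
        rw [div_pow, pow_succ]
        field_simp

lemma shift_MOB {q : ℕ} (χ : DirichletCharacter ℂ q) (k : ℕ) (τ σ y : ℝ) :
    LSeries (fk_MOB χ k τ) (σ + y * Complex.I) =
      LSeries (Mk χ k) (σ + ((τ + y : ℝ) : ℂ) * Complex.I) := by
  rw [LSeries, LSeries]
  refine tsum_congr fun n => ?_
  rcases Nat.eq_zero_or_pos n with rfl | hn
  · rw [LSeries.term_zero, LSeries.term_zero]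
  · rw [LSeries.term_of_ne_zero hn.ne', LSeries.term_of_ne_zero hn.ne']
    have hn0 : ((n : ℕ) : ℂ) ≠ 0 := by exact_mod_cast hn.ne'
    have h1 : ((n : ℕ) : ℂ) ^ ((σ : ℂ) + ((τ + y : ℝ) : ℂ) * Complex.I) =
        ((n : ℕ) : ℂ) ^ ((σ : ℂ) + y * Complex.I) * ((n : ℕ) : ℂ) ^ ((τ : ℂ) * Complex.I) := by
      rw [← Complex.cpow_add _ _ hn0]
      congr 1
      push_cast
      ring
    have h2 : ch τ n * ((n : ℕ) : ℂ) ^ ((τ : ℂ) * Complex.I) = 1 := by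
      rw [ch, Complex.cpow_def_of_ne_zero hn0, ← Complex.exp_add, ← Complex.natCast_log]
      rw [show ((-(τ * Real.log n) : ℝ) : ℂ) * Complex.I +
        ((Real.log n : ℝ) : ℂ) * ((τ : ℂ) * Complex.I) = 0 by push_cast; ring, Complex.exp_zero]
    have h3 : ((n : ℕ) : ℂ) ^ ((σ : ℂ) + y * Complex.I) ≠ 0 := by
      rw [Complex.cpow_def_of_ne_zero hn0]; exact Complex.exp_ne_zero _
    have h4 : ((n : ℕ) : ℂ) ^ ((τ : ℂ) * Complex.I) ≠ 0 := by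
      rw [Complex.cpow_def_of_ne_zero hn0]; exact Complex.exp_ne_zero _
    rw [h1, fk_MOB, div_eq_div_iff h3 (mul_ne_zero h3 h4)]
    linear_combination (Mk χ k n * ((n : ℕ) : ℂ) ^ ((σ : ℂ) + y * Complex.I)) * h2

/-! ### the integral -/

lemma integrable1_MOB : Integrable (fun y : ℝ => (1 + y ^ 2)⁻¹) := integrable_inv_one_add_sq

lemma integrable2_MOB : Integrable (fun y : ℝ => (1 + y ^ 2) ^ (-(3 / 4 : ℝ))) := by
  have h := integrable_rpow_neg_one_add_norm_sq (E := ℝ) (μ := volume) (r := 3 / 2)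
    (by norm_num)
  refine h.congr (Filter.Eventually.of_forall fun y => ?_)
  simp only [Real.norm_eq_abs, sq_abs]
  norm_num

/-- `∫ (1+y²)^{-3/4}` -/
noncomputable def J_MOB : ℝ := ∫ y : ℝ, (1 + y ^ 2) ^ (-(3 / 4 : ℝ))

lemma J_nonneg_MOB : 0 ≤ J_MOB := integral_nonneg fun y => by positivity

lemma int_MOB {g : ℝ → ℝ} {M T R : ℝ} (hg0 : ∀ y, 0 ≤ g y) (hM : 0 ≤ M) (hT : 0 ≤ T) (hR : 0 < R)
    (h1 : ∀ y, |y| ≤ R → g y ≤ M) (h2 : ∀ y, g y ≤ T) :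
    ∫ y : ℝ, g y / (1 + y ^ 2) ≤ M * Real.pi + T * R ^ (-(1 / 2 : ℝ)) * J_MOB := by
  have hb : ∀ y : ℝ, g y / (1 + y ^ 2) ≤ M * (1 + y ^ 2)⁻¹ +
      T * R ^ (-(1 / 2 : ℝ)) * (1 + y ^ 2) ^ (-(3 / 4 : ℝ)) := by
    intro y
    have hy : (0 : ℝ) < 1 + y ^ 2 := by positivity
    rcases le_or_gt |y| R with h | h
    · have e1 : g y / (1 + y ^ 2) ≤ M * (1 + y ^ 2)⁻¹ := by
        rw [div_eq_mul_inv]
        gcongr
        exact h1 y h
      have e2 : 0 ≤ T * R ^ (-(1 / 2 : ℝ)) * (1 + y ^ 2) ^ (-(3 / 4 : ℝ)) := by positivity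
      linarith
    · have e1 : (1 + y ^ 2)⁻¹ ≤ R ^ (-(1 / 2 : ℝ)) * (1 + y ^ 2) ^ (-(3 / 4 : ℝ)) := by
        have e3 : (1 + y ^ 2)⁻¹ = (1 + y ^ 2) ^ (-(1 / 4 : ℝ)) * (1 + y ^ 2) ^ (-(3 / 4 : ℝ)) := by
          rw [← Real.rpow_add hy, ← Real.rpow_neg_one]
          norm_num
        rw [e3]
        gcongr
        have e4 : R ^ (-(1 / 2 : ℝ)) = (R ^ 2) ^ (-(1 / 4 : ℝ)) := by
          rw [← Real.rpow_natCast R 2, ← Real.rpow_mul hR.le]
          norm_num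
        rw [e4]
        refine Real.rpow_le_rpow_of_nonpos (by positivity) ?_ (by norm_num)
        have : R ^ 2 < |y| ^ 2 := by gcongr
        rw [sq_abs] at this
        linarith
      have e5 : g y / (1 + y ^ 2) ≤ T * (R ^ (-(1 / 2 : ℝ)) * (1 + y ^ 2) ^ (-(3 / 4 : ℝ))) := by
        rw [div_eq_mul_inv]
        exact mul_le_mul (h2 y) e1 (by positivity) hT
      have e6 : 0 ≤ M * (1 + y ^ 2)⁻¹ := by positivity
      linarith
  have hint : Integrable (fun y : ℝ => M * (1 + y ^ 2)⁻¹ +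
      T * R ^ (-(1 / 2 : ℝ)) * (1 + y ^ 2) ^ (-(3 / 4 : ℝ))) :=
    (integrable1_MOB.const_mul _).add (integrable2_MOB.const_mul _)
  refine (integral_mono_of_nonneg (Filter.Eventually.of_forall fun y => ?_) hint
    (Filter.Eventually.of_forall hb)).trans (le_of_eq ?_)
  · exact div_nonneg (hg0 y) (by positivity)
  · rw [integral_add (integrable1_MOB.const_mul _) (integrable2_MOB.const_mul _),
      integral_const_mul, integral_const_mul, integral_univ_inv_one_add_sq]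
    rfl

/-! ### eventually true inequalities -/

lemma ev_MOB (B a : ℕ) (K K' : ℝ) : ∀ᶠ L : ℝ in atTop, 60 ≤ L ∧
    (3 : ℝ) ^ (9 / 10 : ℝ) * (((B : ℝ) + 2) * Real.log L) ≤ L ^ (1 / 20 : ℝ) ∧ K ≤ L ∧
    K' * L ^ a ≤ Real.exp (L / 6) := by
  have h1 := eventually_ge_atTop (60 : ℝ)
  have h2 : ∀ᶠ L : ℝ in atTop,
      (3 : ℝ) ^ (9 / 10 : ℝ) * (((B : ℝ) + 2) * Real.log L) ≤ L ^ (1 / 20 : ℝ) := by
    have h := isLittleO_log_rpow_atTop (r := (1 / 20 : ℝ)) (by norm_num)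
    have hc : 0 < ((3 : ℝ) ^ (9 / 10 : ℝ) * ((B : ℝ) + 2))⁻¹ := by positivity
    filter_upwards [h.bound hc, eventually_ge_atTop (1 : ℝ)] with L hL hL1
    rw [Real.norm_of_nonneg (Real.log_nonneg hL1), Real.norm_of_nonneg (by positivity)] at hL
    have hc' : 0 < (3 : ℝ) ^ (9 / 10 : ℝ) * ((B : ℝ) + 2) := by positivity
    calc (3 : ℝ) ^ (9 / 10 : ℝ) * (((B : ℝ) + 2) * Real.log L) =
        ((3 : ℝ) ^ (9 / 10 : ℝ) * ((B : ℝ) + 2)) * Real.log L := by ring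
      _ ≤ ((3 : ℝ) ^ (9 / 10 : ℝ) * ((B : ℝ) + 2)) *
          (((3 : ℝ) ^ (9 / 10 : ℝ) * ((B : ℝ) + 2))⁻¹ * L ^ (1 / 20 : ℝ)) := by gcongr
      _ = L ^ (1 / 20 : ℝ) := by rw [← mul_assoc, mul_inv_cancel₀ hc'.ne', one_mul]
  have h3 := eventually_ge_atTop K
  have h4 : ∀ᶠ L : ℝ in atTop, K' * L ^ a ≤ Real.exp (L / 6) := by
    have h := isLittleO_pow_exp_pos_mul_atTop a (b := 1 / 6) (by norm_num)
    have hc : 0 < (|K'| + 1)⁻¹ := by positivity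
    filter_upwards [h.bound hc, eventually_ge_atTop (1 : ℝ)] with L hL hL1
    rw [Real.norm_of_nonneg (by positivity), Real.norm_of_nonneg (Real.exp_pos _).le] at hL
    have hc' : 0 < |K'| + 1 := by positivity
    calc K' * L ^ a ≤ (|K'| + 1) * L ^ a := by
          gcongr
          linarith [le_abs_self K']
      _ ≤ (|K'| + 1) * ((|K'| + 1)⁻¹ * Real.exp (1 / 6 * L)) := by gcongr
      _ = Real.exp (L / 6) := by
          rw [← mul_assoc, mul_inv_cancel₀ hc'.ne', one_mul]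
          congr 1
          ring
  filter_upwards [h1, h2, h3, h4] with L a b c d
  exact ⟨a, b, c, d⟩

lemma log4_MOB {L : ℝ} (h : 60 ≤ L) : 4 ≤ Real.log L := by
  rw [Real.le_log_iff_exp_le (by linarith)]
  have h1 := Real.exp_one_lt_d9
  have h2 : Real.exp 4 = Real.exp 1 ^ 4 := by rw [← Real.exp_nat_mul]; norm_num
  rw [h2]
  have h3 : Real.exp 1 ^ 4 ≤ (2.7182818286 : ℝ) ^ 4 := by
    gcongr
  refine h3.trans (le_trans ?_ h)
  norm_num

/-- the range of MUK -/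
lemma near_MOB {B B1 : ℕ} (hB : B + 1 ≤ B1) {L t : ℝ} {X q : ℕ} (hq : 1 ≤ q)
    (hL : L = Real.log X) (h60 : 60 ≤ L)
    (hl : (3 : ℝ) ^ (9 / 10 : ℝ) * (((B : ℝ) + 2) * Real.log L) ≤ L ^ (1 / 20 : ℝ))
    (hqB : (q : ℝ) ≤ L ^ B) (ht1 : L ^ B1 / 2 ≤ |t|) (ht2 : |t| ≤ 3 / 2 * (X : ℝ) ^ 2) :
    30 ≤ |t| ∧ Real.log q ≤ el t - 3 ∧ 0 ≤ wq q t ∧ wq q t ≤ L ^ (19 / 20 : ℝ) ∧
      0 ≤ 3 * q * el t ∧ 3 * q * el t ≤ L ^ (B + 2) := by
  have hL0 : 0 < L := by linarith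
  have hL1 : 1 ≤ L := by linarith
  have hlog := log4_MOB h60
  have hq0 : (1 : ℝ) ≤ q := by exact_mod_cast hq
  have hX3 : (3 : ℝ) ≤ X := by
    by_contra hc
    push Not at hc
    rcases Nat.eq_zero_or_pos X with rfl | hX
    · rw [hL, Nat.cast_zero, Real.log_zero] at h60
      linarith
    · have h1 : Real.log X ≤ (X : ℝ) - 1 := Real.log_le_sub_one_of_pos (by exact_mod_cast hX)
      rw [← hL] at h1
      linarith
  have hB1 : L ≤ L ^ B1 := by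
    calc L = L ^ 1 := (pow_one L).symm
      _ ≤ L ^ B1 := pow_le_pow_right₀ hL1 (by omega)
  have h30 : 30 ≤ |t| := by linarith
  have hel1 : (B : ℝ) * Real.log L + 3 ≤ el t := by
    have e1 : Real.log (L ^ B1 / 2) ≤ el t := by
      rw [el]
      apply Real.log_le_log (by positivity)
      linarith
    rw [Real.log_div (by positivity) (by norm_num), Real.log_pow] at e1
    have e2 : ((B : ℝ) + 1) * Real.log L ≤ B1 * Real.log L := by
      have : ((B : ℝ) + 1) ≤ B1 := by exact_mod_cast hB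
      gcongr
    have e3 := Real.log_two_lt_d9
    linarith
  have hel2 : 1 ≤ el t := by
    have : 0 ≤ (B : ℝ) * Real.log L := by positivity
    linarith
  have hel3 : el t ≤ 3 * L := by
    rw [el, hL, show 3 * Real.log (X : ℝ) = Real.log ((X : ℝ) ^ 3) by
      rw [Real.log_pow]; norm_num]
    apply Real.log_le_log (by positivity)
    nlinarith [sq_nonneg ((X : ℝ) - 3), sq_nonneg (X : ℝ)]
  have hlogq : Real.log q ≤ B * Real.log L := by
    rw [← Real.log_pow]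
    exact Real.log_le_log (by linarith) hqB
  have h6 : 3 * q * el t ≤ L ^ (B + 2) := by
    calc 3 * (q : ℝ) * el t ≤ 3 * L ^ B * (3 * L) := by gcongr
      _ = 9 * L ^ (B + 1) := by ring
      _ ≤ L * L ^ (B + 1) := by
          gcongr
          linarith
      _ = L ^ (B + 2) := by ring
  have h7 : 1 ≤ 3 * (q : ℝ) * el t := by nlinarith
  have hv0 : 0 ≤ vv t := by
    rw [vv]
    positivity
  have hv : vv t ≤ 3 ^ (9 / 10 : ℝ) * L ^ (9 / 10 : ℝ) := by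
    rw [vv, ← Real.mul_rpow (by norm_num) hL0.le]
    exact Real.rpow_le_rpow (by linarith) hel3 (by norm_num)
  have hlw0 : 0 ≤ Real.log (3 * q * el t) := Real.log_nonneg h7
  have hlw : Real.log (3 * q * el t) ≤ ((B : ℝ) + 2) * Real.log L := by
    have := Real.log_le_log (by linarith) h6
    rw [Real.log_pow] at this
    push_cast at this
    exact this
  refine ⟨h30, by linarith, mul_nonneg hv0 hlw0, ?_, by linarith, h6⟩
  calc wq q t = vv t * Real.log (3 * q * el t) := rfl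
    _ ≤ (3 ^ (9 / 10 : ℝ) * L ^ (9 / 10 : ℝ)) * (((B : ℝ) + 2) * Real.log L) := by gcongr
    _ = L ^ (9 / 10 : ℝ) * (3 ^ (9 / 10 : ℝ) * (((B : ℝ) + 2) * Real.log L)) := by ring
    _ ≤ L ^ (9 / 10 : ℝ) * L ^ (1 / 20 : ℝ) := by gcongr
    _ = L ^ (19 / 20 : ℝ) := by
        rw [← Real.rpow_add hL0]
        norm_num

/-- the bound of the integral and of the sum with `(log n)^k` -/
lemma sum_MOB (hper : StPer) (k C0 : ℕ) {C' : ℝ} (hC'0 : 0 < C')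
    (hC' : ∀ (q : ℕ) [NeZero q] (χ : DirichletCharacter ℂ q) (σ t : ℝ), 30 ≤ |t| →
      Real.log q ≤ el t - 3 → 1 < σ → σ ≤ 2 →
      ‖LSeries (Mk χ k) (σ + t * Complex.I)‖ ≤ C' * wq q t ^ k * (3 * q * el t) ^ C0)
    (B B1 : ℕ) (hB1 : B + 2 * (k + 1) + 4 ≤ B1) :
    ∃ D : ℝ, 0 < D ∧ ∀ (L τ : ℝ) (X q N : ℕ) [NeZero q] (χ : DirichletCharacter ℂ q),
      L = Real.log X → 60 ≤ L →
      (3 : ℝ) ^ (9 / 10 : ℝ) * (((B : ℝ) + 2) * Real.log L) ≤ L ^ (1 / 20 : ℝ) →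
      (q : ℝ) ≤ L ^ B → L ^ B1 ≤ |τ| → |τ| ≤ (X : ℝ) ^ 2 → N ≤ 2 * X ^ 2 →
      ∀ x : ℝ, 1 ≤ x → x ≤ N →
      ‖∑ n ∈ Ioc 0 ⌊x⌋₊, fk_MOB χ k τ n * ((Real.posLog (x / n) : ℝ) : ℂ)‖ ≤
        D * (L ^ (19 / 20 : ℝ)) ^ k * (L ^ (B + 2)) ^ C0 * x := by
  obtain ⟨CP, hCP0, hCP⟩ := hper
  obtain ⟨ck, hck⟩ : ∃ ck : ℝ, ck = 3 * 2 ^ k * (k.factorial : ℝ) := ⟨_, rfl⟩
  have hck0 : 0 < ck := by rw [hck]; positivity
  have hJ := J_nonneg_MOB
  refine ⟨CP * 3 * (C' * Real.pi + ck * 3 ^ (k + 1) * J_MOB), by positivity, ?_⟩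
  intro L τ X q N _ χ hL h60 hl hqB hτ1 hτ2 hNX x hx1 hxN
  have hL0 : 0 < L := by linarith
  have hL1 : 1 ≤ L := by linarith
  have hx0 : 0 < x := by linarith
  have hX1 : (1 : ℝ) ≤ X := by
    rcases Nat.eq_zero_or_pos X with rfl | hX
    · rw [hL, Nat.cast_zero, Real.log_zero] at h60
      linarith
    · exact_mod_cast hX
  have hxX : x ≤ 2 * (X : ℝ) ^ 2 := hxN.trans (by exact_mod_cast hNX)
  have hlx : Real.log x ≤ 3 * L := by
    have e1 : Real.log x ≤ Real.log (2 * (X : ℝ) ^ 2) := Real.log_le_log hx0 hxX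
    rw [Real.log_mul (by norm_num) (by positivity), Real.log_pow, ← hL] at e1
    have e2 := Real.log_two_lt_d9
    push_cast at e1
    linarith
  -- choice of σ
  obtain ⟨δ, hδ0, hδ1, hδL, hxσ⟩ : ∃ δ : ℝ, 0 < δ ∧ δ ≤ 1 ∧ 1 / (3 * L) ≤ δ ∧
      x ^ (1 + δ) ≤ 3 * x := by
    rcases le_or_gt 3 x with h3 | h3
    · have hlx1 : 1 ≤ Real.log x :=
        (Pool.Agent.Helper48.BK.log3_Uns).trans (Real.log_le_log (by norm_num) h3)
      refine ⟨1 / Real.log x, by positivity, ?_, ?_, ?_⟩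
      · rw [div_le_one (by linarith)]; exact hlx1
      · gcongr
      · rw [Real.rpow_add hx0, Real.rpow_one, Real.rpow_def_of_pos hx0,
          mul_one_div_cancel (by linarith : Real.log x ≠ 0)]
        have := Real.exp_one_lt_d9
        nlinarith
    · refine ⟨1, one_pos, le_rfl, ?_, ?_⟩
      · rw [div_le_one (by positivity)]; linarith
      · rw [show (1 : ℝ) + 1 = ((2 : ℕ) : ℝ) by norm_num, Real.rpow_natCast]
        nlinarith
  have hσ1 : 1 < 1 + δ := by linarith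
  have hσ2 : 1 + δ ≤ 2 := by linarith
  have hsum : LSeriesSummable (fk_MOB χ k τ) ((1 + δ : ℝ) : ℂ) :=
    sumterm_MOB χ k τ hδ0 (by simp)
  obtain ⟨-, hP⟩ := hCP (fk_MOB χ k τ) (1 + δ) x hσ1 hσ2 hx1 hsum
  -- the trivial bound
  have hT : ∀ y : ℝ, ‖LSeries (fk_MOB χ k τ) ((1 + δ : ℝ) + y * Complex.I)‖ ≤
      ck * (3 * L) ^ (k + 1) := by
    intro y
    have e1 := trivial_MOB χ k τ hδ0 hδ1 (s := ((1 + δ : ℝ) : ℂ) + y * Complex.I) (by simp)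
    refine e1.trans ?_
    rw [← hck, div_eq_mul_inv, ← inv_pow]
    have e2 : δ⁻¹ ≤ 3 * L := by
      rw [inv_le_comm₀ hδ0 (by positivity), ← one_div]
      exact hδL
    have e3 : 0 < δ⁻¹ := by positivity
    gcongr
  have hR0 : 0 < |τ| / 2 := by
    have : 0 < L ^ B1 := by positivity
    linarith
  have hM : ∀ y : ℝ, |y| ≤ |τ| / 2 → ‖LSeries (fk_MOB χ k τ) ((1 + δ : ℝ) + y * Complex.I)‖ ≤
      C' * (L ^ (19 / 20 : ℝ)) ^ k * (L ^ (B + 2)) ^ C0 := by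
    intro y hy
    have e1 : |τ| / 2 ≤ |τ + y| := by
      have := abs_sub_abs_le_abs_sub τ (-y)
      rw [abs_neg, sub_neg_eq_add] at this
      linarith
    have e2 : |τ + y| ≤ 3 / 2 * (X : ℝ) ^ 2 := by
      have := abs_add_le τ y
      linarith
    obtain ⟨n1, n2, n3, n4, n5, n6⟩ := near_MOB (B := B) (B1 := B1) (t := τ + y) (by omega)
      (Nat.one_le_iff_ne_zero.2 (NeZero.ne q)) hL h60 hl hqB (by linarith) e2
    rw [shift_MOB]
    refine (hC' q χ (1 + δ) (τ + y) n1 n2 hσ1 hσ2).trans ?_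
    gcongr
  have hint := int_MOB (g := fun y : ℝ => ‖LSeries (fk_MOB χ k τ) ((1 + δ : ℝ) + y * Complex.I)‖)
    (M := C' * (L ^ (19 / 20 : ℝ)) ^ k * (L ^ (B + 2)) ^ C0) (T := ck * (3 * L) ^ (k + 1))
    (R := |τ| / 2) (fun y => norm_nonneg _) (by positivity) (by positivity) hR0 hM hT
  have hR : (|τ| / 2) ^ (-(1 / 2 : ℝ)) ≤ (L ^ (k + 1))⁻¹ := by
    have e1 : (L ^ (k + 1)) ^ 2 ≤ |τ| / 2 := by
      have e2 : (L ^ (k + 1)) ^ 2 * 2 ≤ L ^ B1 := by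
        calc (L ^ (k + 1)) ^ 2 * 2 ≤ (L ^ (k + 1)) ^ 2 * L := by gcongr; linarith
          _ = L ^ (2 * (k + 1) + 1) := by ring
          _ ≤ L ^ B1 := pow_le_pow_right₀ hL1 (by omega)
      linarith
    have e3 : (L ^ (k + 1))⁻¹ = ((L ^ (k + 1)) ^ 2) ^ (-(1 / 2 : ℝ)) := by
      rw [← Real.rpow_natCast (L ^ (k + 1)) 2, ← Real.rpow_mul (by positivity)]
      norm_num
      rw [Real.rpow_neg_one]
    rw [e3]
    exact Real.rpow_le_rpow_of_nonpos (by positivity) e1 (by norm_num)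
  have hone : 1 ≤ (L ^ (19 / 20 : ℝ)) ^ k * (L ^ (B + 2)) ^ C0 := by
    have e1 : 1 ≤ L ^ (19 / 20 : ℝ) := Real.one_le_rpow hL1 (by norm_num)
    have e2 : 1 ≤ (L ^ (19 / 20 : ℝ)) ^ k := one_le_pow₀ e1
    have e3 : 1 ≤ (L ^ (B + 2)) ^ C0 := one_le_pow₀ (one_le_pow₀ hL1)
    nlinarith
  have hint2 : ∫ y : ℝ, ‖LSeries (fk_MOB χ k τ) ((1 + δ : ℝ) + y * Complex.I)‖ / (1 + y ^ 2) ≤
      (C' * Real.pi + ck * 3 ^ (k + 1) * J_MOB) *
        ((L ^ (19 / 20 : ℝ)) ^ k * (L ^ (B + 2)) ^ C0) := by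
    refine hint.trans ?_
    have e1 : ck * (3 * L) ^ (k + 1) * (|τ| / 2) ^ (-(1 / 2 : ℝ)) * J_MOB ≤
        ck * 3 ^ (k + 1) * J_MOB := by
      calc ck * (3 * L) ^ (k + 1) * (|τ| / 2) ^ (-(1 / 2 : ℝ)) * J_MOB ≤
          ck * (3 * L) ^ (k + 1) * (L ^ (k + 1))⁻¹ * J_MOB := by gcongr
        _ = ck * 3 ^ (k + 1) * J_MOB := by
          rw [mul_pow]
          field_simp
    have e2 : ck * 3 ^ (k + 1) * J_MOB ≤ ck * 3 ^ (k + 1) * J_MOB *
        ((L ^ (19 / 20 : ℝ)) ^ k * (L ^ (B + 2)) ^ C0) :=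
      le_mul_of_one_le_right (by positivity) hone
    calc _ ≤ C' * (L ^ (19 / 20 : ℝ)) ^ k * (L ^ (B + 2)) ^ C0 * Real.pi +
          ck * 3 ^ (k + 1) * J_MOB *
        ((L ^ (19 / 20 : ℝ)) ^ k * (L ^ (B + 2)) ^ C0) := by linarith
      _ = _ := by ring
  refine hP.trans ?_
  calc CP * x ^ (1 + δ) *
      ∫ y : ℝ, ‖LSeries (fk_MOB χ k τ) ((1 + δ : ℝ) + y * Complex.I)‖ / (1 + y ^ 2) ≤
      CP * (3 * x) * ((C' * Real.pi + ck * 3 ^ (k + 1) * J_MOB) *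
        ((L ^ (19 / 20 : ℝ)) ^ k * (L ^ (B + 2)) ^ C0)) := by
        gcongr
    _ = _ := by ring

/-! ### MOB -/

lemma split_MOB (c : ℂ) {n : ℕ} (hn : 1 ≤ n) :
    ∑ i ∈ Ioc 0 n, (if i = 1 then c else 0) = c := by
  rw [sum_ite_eq' (Ioc 0 n) 1 (fun _ => c), if_pos (mem_Ioc.2 ⟨Nat.one_pos, hn⟩)]

lemma fk_one_MOB {q : ℕ} (χ : DirichletCharacter ℂ q) {k : ℕ} (hk : k ≠ 0) (τ : ℝ) :
    fk_MOB χ k τ 1 = 0 := by
  rw [fk_MOB, Mk]
  simp [hk]

theorem hMOB (h1 : StMuk) (h2 : StPer) (h3 : StRml) : StMob := by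
  intro A B
  obtain ⟨C0, hC0⟩ := h1
  obtain ⟨A', hA'⟩ : ∃ A' : ℕ, A' = A + 1 := ⟨_, rfl⟩
  obtain ⟨m, hm⟩ : ∃ m : ℕ, m = (B + 2) * C0 + (2 * A' + 6) := ⟨_, rfl⟩
  obtain ⟨k, hk⟩ : ∃ k : ℕ, k = 20 * m := ⟨_, rfl⟩
  have hk1 : 1 ≤ k := by omega
  obtain ⟨C', hC'0, hC'⟩ := hC0 k
  obtain ⟨CR, hCR0, hCR⟩ := h3 k
  obtain ⟨CU, hCU0, hCU⟩ := Pool.Agent.Helper48.BK.hUns A'
  obtain ⟨B1, hB1⟩ : ∃ B1 : ℕ, B1 = B + 2 * (k + 1) + 4 := ⟨_, rfl⟩
  obtain ⟨D, hD0, hD⟩ := sum_MOB h2 k C0 hC'0 hC' B B1 hB1.ge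
  obtain ⟨C2, hC2⟩ : ∃ C2 : ℝ, C2 = CR * D * 6 ^ k := ⟨_, rfl⟩
  have hC20 : 0 < C2 := by rw [hC2]; positivity
  obtain ⟨K, hK⟩ : ∃ K : ℝ, K = 4 * C2 * 2 ^ (2 * A' + 2) + 2 * CU * 6 ^ A' := ⟨_, rfl⟩
  have hev := ev_MOB B (2 * A' + 3) K (6 * 2 ^ (2 * A' + 2))
  have hev2 : ∀ᶠ X : ℕ in atTop, 60 ≤ Real.log X ∧
      (3 : ℝ) ^ (9 / 10 : ℝ) * (((B : ℝ) + 2) * Real.log (Real.log X)) ≤
        Real.log X ^ (1 / 20 : ℝ) ∧ K ≤ Real.log X ∧
      6 * 2 ^ (2 * A' + 2) * Real.log X ^ (2 * A' + 3) ≤ Real.exp (Real.log X / 6) :=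
    (Real.tendsto_log_atTop.comp tendsto_natCast_atTop_atTop).eventually hev
  obtain ⟨X0, hX0⟩ := eventually_atTop.1 hev2
  refine ⟨B1, X0, ?_⟩
  intro X hX q _ χ N τ hq hN1 hN2 hτ1 hτ2
  obtain ⟨h60, hl, hKL, hexp⟩ := hX0 X hX
  obtain ⟨L, hL⟩ : ∃ L : ℝ, L = Real.log X := ⟨_, rfl⟩
  rw [← hL] at h60 hl hKL hexp hq hτ1 ⊢
  have hL0 : 0 < L := by linarith
  have hL1 : 1 ≤ L := by linarith
  have hXpos : (0 : ℝ) < X := by
    rcases Nat.eq_zero_or_pos X with rfl | hX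
    · rw [hL, Nat.cast_zero, Real.log_zero] at h60
      linarith
    · exact_mod_cast hX
  have hN6 : Real.exp (L / 6) ≤ N := by
    refine le_trans (le_of_eq ?_) hN1
    rw [Real.rpow_def_of_pos hXpos, ← hL]
    congr 1
    ring
  have hNpos : (0 : ℝ) < N := (Real.exp_pos _).trans_le hN6
  have hlogN1 : L / 6 ≤ Real.log N := by
    rw [Real.le_log_iff_exp_le hNpos]; exact hN6
  have hN2' : (N : ℝ) ≤ (X : ℝ) ^ 2 := by exact_mod_cast hN2
  have hlogN2 : Real.log N ≤ 2 * L := by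
    have e1 := Real.log_le_log hNpos hN2'
    rw [Real.log_pow, ← hL] at e1
    push_cast at e1
    exact e1
  have hN3 : 3 ≤ N := by
    have e1 : (3 : ℝ) ≤ N := by
      have := Real.add_one_le_exp (L / 6)
      linarith
    exact_mod_cast e1
  -- the smoothed sums
  have hsm : ∀ N' ∈ Icc N (2 * N), ‖∑ n ∈ Ioc 0 N', (cmu χ n * ch τ n) *
      ((Real.posLog ((N' : ℝ) / n) : ℝ) : ℂ)‖ ≤ 1 * N / Real.log N ^ (2 * A' + 2) := by
    intro N' hN'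
    rw [mem_Icc] at hN'
    have hN'pos : (0 : ℝ) < N' := by
      have : (N : ℝ) ≤ N' := by exact_mod_cast hN'.1
      linarith
    have hN'2 : (N' : ℝ) ≤ 2 * N := by exact_mod_cast hN'.2
    have hN'1 : (N : ℝ) ≤ N' := by exact_mod_cast hN'.1
    have hlog' : L / 6 ≤ Real.log N' := hlogN1.trans (Real.log_le_log hNpos hN'1)
    have hlog'2 : Real.log N' ≤ 3 * L := by
      have e1 := Real.log_le_log hN'pos hN'2
      rw [Real.log_mul (by norm_num) hNpos.ne'] at e1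
      have e2 := Real.log_two_lt_d9
      linarith
    obtain ⟨a, ha⟩ : ∃ a : ℕ → ℂ, a = fun n => if n = 1 then 0 else cmu χ n * ch τ n := ⟨_, rfl⟩
    have ha1 : a 1 = 0 := by rw [ha]; simp
    have hak : ∀ n, a n * ((Real.log n : ℝ) : ℂ) ^ k = fk_MOB χ k τ n := by
      intro n
      rw [ha]
      by_cases hn : n = 1
      · subst hn
        rw [fk_one_MOB χ (by omega : k ≠ 0) τ]
        simp
      · simp only [if_neg hn]
        rw [fk_MOB, Mk, cmu]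
        ring
    have hR := hCR a (D * (L ^ (19 / 20 : ℝ)) ^ k * (L ^ (B + 2)) ^ C0) N' ha1 (by omega)
      (by
        intro x hx1 hx2
        have e1 := hD L τ X q N' χ hL h60 hl hq hτ1 hτ2 (by omega) x hx1 hx2
        refine le_trans (le_of_eq ?_) e1
        congr 1
        refine sum_congr rfl fun n _ => ?_
        rw [hak n])
    have hsplit : ∑ n ∈ Ioc 0 N', (cmu χ n * ch τ n) * ((Real.posLog ((N' : ℝ) / n) : ℝ) : ℂ) =
        ∑ n ∈ Ioc 0 N', a n * ((Real.posLog ((N' : ℝ) / n) : ℝ) : ℂ) +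
        (cmu χ 1 * ch τ 1) * ((Real.posLog ((N' : ℝ) / (1 : ℕ)) : ℝ) : ℂ) := by
      have hs := split_MOB ((cmu χ 1 * ch τ 1) *
        ((Real.posLog ((N' : ℝ) / (1 : ℕ)) : ℝ) : ℂ)) (n := N') (by omega)
      rw [← hs, ← sum_add_distrib]
      refine sum_congr rfl fun n _ => ?_
      rw [ha]
      by_cases hn : n = 1
      · subst hn
        simp
      · simp [hn]
    have hone : ‖(cmu χ 1 * ch τ 1) * ((Real.posLog ((N' : ℝ) / (1 : ℕ)) : ℝ) : ℂ)‖ ≤ 3 * L := by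
      rw [norm_mul, norm_mul, norm_ch_MOB, mul_one, Complex.norm_real]
      have e1 : ‖Real.posLog ((N' : ℝ) / (1 : ℕ))‖ = Real.log N' := by
        have e0 : (1 : ℝ) ≤ N' := by
          have : (3 : ℝ) ≤ N := by exact_mod_cast hN3
          linarith
        rw [Nat.cast_one, div_one, Real.posLog_eq_log (by rw [abs_of_pos hN'pos]; exact e0),
          Real.norm_of_nonneg (Real.log_nonneg e0)]
      rw [e1]
      have e2 := norm_cmu_MOB χ 1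
      have e3 : 0 ≤ Real.log N' := by linarith
      nlinarith
    rw [hsplit]
    refine (norm_add_le _ _).trans ?_
    refine (add_le_add hR hone).trans ?_
    -- the main inequality
    have hpow : (L ^ (19 / 20 : ℝ)) ^ k = L ^ (19 * m) := by
      rw [← Real.rpow_natCast (L ^ (19 / 20 : ℝ)) k, ← Real.rpow_mul hL0.le, hk,
        ← Real.rpow_natCast L (19 * m)]
      congr 1
      push_cast
      ring
    have hmain : CR * (D * (L ^ (19 / 20 : ℝ)) ^ k * (L ^ (B + 2)) ^ C0) * N' / Real.log N' ^ k ≤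
        C2 * (2 * N) / L ^ (2 * A' + 6) := by
      have e1 : (L / 6) ^ k ≤ Real.log N' ^ k := by gcongr
      have e2 : 0 < (L / 6) ^ k := by positivity
      calc CR * (D * (L ^ (19 / 20 : ℝ)) ^ k * (L ^ (B + 2)) ^ C0) * N' / Real.log N' ^ k ≤
          CR * (D * (L ^ (19 / 20 : ℝ)) ^ k * (L ^ (B + 2)) ^ C0) * (2 * N) / (L / 6) ^ k := by
            gcongr
        _ = CR * (D * L ^ (19 * m) * (L ^ (B + 2)) ^ C0) * (2 * N) / (L / 6) ^ k := by rw [hpow]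
        _ = C2 * (2 * N) / L ^ (2 * A' + 6) := by
            rw [hC2, div_pow]
            have e3 : L ^ k = L ^ (19 * m) * (L ^ (B + 2)) ^ C0 * L ^ (2 * A' + 6) := by
              rw [← pow_mul, ← pow_add, ← pow_add]
              congr 1
              rw [hk]
              have : 20 * m = 19 * m + m := by ring
              rw [this]
              rw [Nat.add_assoc]
              congr 1
            rw [e3]
            field_simp
    refine (add_le_add hmain le_rfl).trans ?_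
    have hlogN0 : 0 < Real.log N := by linarith
    have hfin : (N : ℝ) / (2 * L) ^ (2 * A' + 2) ≤ 1 * N / Real.log N ^ (2 * A' + 2) := by
      rw [one_mul]
      gcongr
    refine le_trans ?_ hfin
    have e1 : C2 * (2 * N) / L ^ (2 * A' + 6) ≤ (N / (2 * L) ^ (2 * A' + 2)) / 2 := by
      rw [div_div, div_le_div_iff₀ (by positivity) (by positivity)]
      have e2 : 4 * C2 * 2 ^ (2 * A' + 2) ≤ L ^ 4 := by
        have e3 : 4 * C2 * 2 ^ (2 * A' + 2) ≤ L := by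
          have : 0 < 2 * CU * 6 ^ A' := by positivity
          linarith
        exact e3.trans (le_self_pow₀ hL1 (by norm_num))
      calc C2 * (2 * N) * ((2 * L) ^ (2 * A' + 2) * 2) =
          (4 * C2 * 2 ^ (2 * A' + 2)) * (N * L ^ (2 * A' + 2)) := by rw [mul_pow]; ring
        _ ≤ L ^ 4 * (N * L ^ (2 * A' + 2)) := by gcongr
        _ = N * L ^ (2 * A' + 6) := by ring
    have e4 : 3 * L ≤ (N / (2 * L) ^ (2 * A' + 2)) / 2 := by
      rw [div_div, le_div_iff₀ (by positivity)]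
      calc 3 * L * ((2 * L) ^ (2 * A' + 2) * 2) =
          6 * 2 ^ (2 * A' + 2) * L ^ (2 * A' + 3) := by rw [mul_pow]; ring
        _ ≤ N := hexp.trans hN6
    linarith
  have hU := hCU (fun n => cmu χ n * ch τ n) N 1 hN3 zero_le_one
    (by
      intro n hn
      rw [norm_mul, norm_ch_MOB, mul_one]
      have e1 := norm_cmu_MOB χ n
      have e2 : 0 ≤ Real.log n := Real.log_nonneg (by exact_mod_cast hn)
      linarith) hsm
  refine hU.trans ?_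
  have e1 : (L / 6) ^ A' ≤ Real.log N ^ A' := by gcongr
  have e2 : 2 * CU * 6 ^ A' ≤ L := by
    have : 0 < 4 * C2 * 2 ^ (2 * A' + 2) := by positivity
    linarith
  calc CU * (1 + 1) * N / Real.log N ^ A' ≤ CU * (1 + 1) * N / (L / 6) ^ A' := by gcongr
    _ = (2 * CU * 6 ^ A') * N / L ^ A' := by rw [div_pow]; field_simp; ring
    _ ≤ L * N / L ^ A' := by gcongr
    _ = N / L ^ A := by rw [hA', pow_succ]; field_simp

end Pool.Agent.Helper11.GK
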